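import Pool.Agent.H48.PL.Swap
import Pool.Agent.H48.PL.Wgt
import Pool.Agent.H82.CM.Op
import Pool.Agent.H82.NT.GainN
import Pool.Agent.H82.NT.SwapA
import Pool.Agent.H67.NW.MedW

/-!
# Block O for all exponents `-1 ≤ a`: the nonlinear touching inequality, gain and loss

Copy of Pool/Agent/H67/NZ/GainZ.lean with `-1 ≤ a` (that is `0 ≤ γ = 1 + a`, used in the dilute planar theorem).

Proof of `gain_nl` (Pool/Agent/H82/NT/GainN.lean) with the one-sided touching condition (`PCond`, `g ≤ TbP`) and the weight `PhS`: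
`V_e PhS = min(1,⟨w⟩/⟨v⟩)^4 V_e²|V|^(a-1) ≥ c² M^(-2) |V|^(1+a)` if `c(1+|v|²) ≤ 1+|w|²`, `|V| ≤ M |V_e|`.
-/

set_option autoImplicit false

open MeasureTheory Set Filter Topology Pool.Agent.H25.Kin Pool.Agent.H82.BK Pool.Agent.H82.CM
open Pool.Agent.H48.PL Pool.Agent.H48.PI Pool.Agent.H48.PW Pool.Agent.H82.NT Pool.Agent.H67.NW
open scoped ENNReal

namespace Pool.Agent.H82.DG

variable {d : ℕ} {s a β C Ca cb : ℝ} {b : ℝ → ℝ}

lemma VPhS_eq (e : Fin d) (a : ℝ) (v w : Vec d) :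
    (v e - w e) * PhS e a v w = min 1 (jb w / jb v) ^ 4 * ((v e - w e) ^ 2 * len (v - w) ^ (a - 1)) := by
  unfold PhS phi
  rw [Pi.sub_apply]
  ring

lemma VPhS_nonneg (e : Fin d) (a : ℝ) (v w : Vec d) : 0 ≤ (v e - w e) * PhS e a v w := by
  rw [VPhS_eq]
  have h1 : 0 ≤ min 1 (jb w / jb v) := le_min zero_le_one (div_nonneg (jb_pos w).le (jb_pos v).le)
  have h2 : 0 ≤ len (v - w) ^ (a - 1) := Real.rpow_nonneg (len_nonneg _) _
  positivity

lemma sq_len_rpow {y : Vec d} (h : 0 < len y) : len y ^ 2 * len y ^ (a - 1) = len y ^ (1 + a) := by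
  rw [← Real.rpow_natCast (len y) 2, ← Real.rpow_add h]
  congr 1
  push_cast
  ring

lemma VPhS_le_len (e : Fin d) (a : ℝ) (v w : Vec d) :
    (v e - w e) * PhS e a v w ≤ len (v - w) ^ (1 + a) := by
  rw [VPhS_eq]
  have h1 : 0 ≤ min 1 (jb w / jb v) := le_min zero_le_one (div_nonneg (jb_pos w).le (jb_pos v).le)
  have h2 : 0 ≤ len (v - w) ^ (a - 1) := Real.rpow_nonneg (len_nonneg _) _
  have h3 : min 1 (jb w / jb v) ^ 4 ≤ 1 := pow_le_one₀ h1 (min_le_left _ _)
  have h4 : (v e - w e) ^ 2 ≤ len (v - w) ^ 2 := by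
    rw [← sq_abs (v e - w e)]
    exact pow_le_pow_left₀ (abs_nonneg _) (abs_coord_le (v - w) e) 2
  rcases (len_nonneg (v - w)).eq_or_lt with h | h
  · have h5 : (v e - w e) ^ 2 = 0 := by
      rw [← h] at h4
      have := sq_nonneg (v e - w e)
      linarith
    rw [h5, zero_mul, mul_zero]
    exact Real.rpow_nonneg (len_nonneg _) _
  rw [← sq_len_rpow h]
  have h5 : 0 ≤ (v e - w e) ^ 2 * len (v - w) ^ (a - 1) := by positivity
  calc _ ≤ 1 * ((v e - w e) ^ 2 * len (v - w) ^ (a - 1)) := mul_le_mul_of_nonneg_right h3 h5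
    _ ≤ _ := by rw [one_mul]; exact mul_le_mul_of_nonneg_right h4 h2

lemma VPhS_meas (e : Fin d) (a : ℝ) (v : Vec d) : Measurable fun z : Vec d => (v e - z e) * PhS e a v z := by
  have h0 : Measurable fun z : Vec d => v e - z e := measurable_const.sub (measurable_pi_apply e)
  have h1 : Measurable fun z : Vec d => min 1 (jb z / jb v) ^ 4 :=
    (measurable_const.min (jb_cont.measurable.div_const _)).pow_const 4
  have h2 : Measurable fun z : Vec d => len (v - z) ^ (a - 1) :=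
    (continuous_len.comp (continuous_const.sub continuous_id)).measurable.pow_const _
  have h3 : (fun z : Vec d => (v e - z e) * PhS e a v z) =
      fun z => min 1 (jb z / jb v) ^ 4 * ((v e - z e) ^ 2 * len (v - z) ^ (a - 1)) := by
    funext z; exact VPhS_eq e a v z
  rw [h3]
  exact h1.mul ((h0.pow_const 2).mul h2)

private lemma gn_min0 (v w : Vec d) : 0 ≤ min 1 (jb w / jb v) :=
  le_min zero_le_one (div_nonneg (jb_pos w).le (jb_pos v).le)

/-- lower bound of the weight -/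
private lemma gn_wt {c M : ℝ} (hc : 0 ≤ c) (hc1 : c ≤ 1) {v z : Vec d} (hne : 0 < len (v - z))
    (h : c * (1 + nsq v) ≤ 1 + nsq z) (e : Fin d) (hl : len (v - z) ≤ M * |v e - z e|) :
    c ^ 2 * len (v - z) ^ (1 + a) ≤ M ^ 2 * ((v e - z e) * PhS e a v z) := by
  have h1 := jb_pos v
  have h2 := jb_pos z
  have h4 : c ≤ min 1 (jb z / jb v) ^ 2 := by
    rcases le_total 1 (jb z / jb v) with h3 | h3
    · rw [min_eq_left h3]
      simpa using hc1
    · rw [min_eq_right h3, div_pow, le_div_iff₀ (by positivity), jb_sq, jb_sq]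
      exact h
  have h5 : c ^ 2 ≤ min 1 (jb z / jb v) ^ 4 := by
    calc c ^ 2 ≤ (min 1 (jb z / jb v) ^ 2) ^ 2 := pow_le_pow_left₀ hc h4 2
      _ = _ := by ring
  have h6 : len (v - z) ^ 2 ≤ M ^ 2 * (v e - z e) ^ 2 := by
    calc len (v - z) ^ 2 ≤ (M * |v e - z e|) ^ 2 := pow_le_pow_left₀ (len_nonneg _) hl 2
      _ = _ := by rw [mul_pow, sq_abs]
  have h7 : 0 ≤ len (v - z) ^ (a - 1) := Real.rpow_nonneg (len_nonneg _) _
  rw [VPhS_eq, ← sq_len_rpow hne]
  calc c ^ 2 * (len (v - z) ^ 2 * len (v - z) ^ (a - 1))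
      ≤ min 1 (jb z / jb v) ^ 4 * ((M ^ 2 * (v e - z e) ^ 2) * len (v - z) ^ (a - 1)) :=
        mul_le_mul h5 (mul_le_mul_of_nonneg_right h6 h7) (by positivity) (by positivity)
    _ = _ := by ring

/-- not slow: comparable with `v` from below -/
private lemma gn_notslow {δ a₀ : ℝ} (_ha₀ : 1 ≤ a₀) {v z : Vec d} (h : ¬ SlowR δ a₀ v z) :
    min (1 / a₀) (δ ^ 2) * (1 + nsq v) ≤ 1 + nsq z := by
  have hz := sq_nonneg' z
  have hv := sq_nonneg' v
  have ha : 0 < 1 + nsq v := by linarith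
  by_cases h1 : a₀ ≤ 1 + nsq v
  · have h2 : δ ^ 2 * (1 + nsq v) < nsq z := by
      by_contra h3
      exact h ⟨h1, not_lt.1 h3⟩
    have h3 := mul_le_mul_of_nonneg_right (min_le_right (1 / a₀) (δ ^ 2)) ha.le
    linarith
  · have h2 : 1 / a₀ * (1 + nsq v) ≤ 1 := by
      rw [one_div, inv_mul_le_iff₀ (by linarith)]
      push Not at h1
      linarith
    have h3 := mul_le_mul_of_nonneg_right (min_le_left (1 / a₀) (δ ^ 2)) ha.le
    linarith

/-- small `m`: comparable with `v` from below -/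
private lemma gn_near {v m : Vec d} (h : nsq m ≤ 1 / 8 * (1 + nsq v)) :
    1 / 4 * (1 + nsq v) ≤ 1 + nsq (v - m) := by
  have h5 : nsq v ≤ 2 * nsq m + 2 * nsq (v - m) := by
    have h6 := nsq_par m (v - m)
    have e : m + (v - m) = v := by abel
    rw [e] at h6
    have h7 := sq_nonneg' (m - (v - m))
    linarith
  have hv := sq_nonneg' v
  linarith

private lemma gn_near' {v h : Vec d} (hh : nsq h ≤ 1 / 8 * (1 + nsq v)) :
    1 / 4 * (1 + nsq v) ≤ 1 + nsq (v + h) := by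
  have e : v + h = v - (-h) := by abel
  rw [e]
  refine gn_near ?_
  have e1 : nsq (-h) = nsq h := by
    unfold nsq
    refine Finset.sum_congr rfl fun i _ => ?_
    rw [Pi.neg_apply, neg_sq]
  rw [e1]
  exact hh

/-- touching: the values at the velocities which are not slow -/
private lemma gn_val {δ₁ c : ℝ} {p : ℕ} (hδ1 : δ₁ ≤ 1) (hc : 0 < c)
    {g : Vec d → ℝ} (hg0 : ∀ u, 0 ≤ g u) {v z : Vec d} {P : Vec d → ℝ} (hP : PCond δ₁ β v P)
    (ht : ∀ u, g u ≤ TbP p (g v) v P u)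
    (h : c * (1 + nsq v) ≤ 1 + nsq z) : g z ≤ 2 / c ^ p * g v := by
  have hz := sq_nonneg' z
  have hv := sq_nonneg' v
  have hgv := hg0 v
  have hZ : 0 < 1 + nsq z := by linarith
  have h1 := (abs_le.1 (hP.bd z)).2
  have h2 := Tb_nonneg (p := p) hgv v z
  have h3 : g z ≤ 2 * Tb p (g v) v z := by
    refine (ht z).trans ?_
    unfold TbP
    nlinarith
  have h4 : (1 + nsq v) / (1 + nsq z) ≤ 1 / c := by
    rw [div_le_div_iff₀ hZ hc]; linarith
  have h5 : Tb p (g v) v z ≤ g v * (1 / c) ^ p := by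
    unfold Tb
    exact mul_le_mul_of_nonneg_left (pow_le_pow_left₀ (by positivity) h4 p) hgv
  calc g z ≤ 2 * Tb p (g v) v z := h3
    _ ≤ 2 * (g v * (1 / c) ^ p) := by linarith
    _ = _ := by rw [div_pow, one_pow]; ring

/-- the bounded part is small compared with `g v` -/
private lemma gn_small {p : ℕ} {C₀ ρ c η x : ℝ} (hc : 0 < c) (hη : 0 < η) (hx : 0 ≤ x) {g1 : Vec d → ℝ}
    (hC : ∀ u, g1 u ≤ C₀) (hρ : ∀ u, g1 u ≠ 0 → 1 + nsq u ≤ ρ) {v : Vec d}
    (hN : C₀ * (ρ / c) ^ p / η ≤ x * (1 + nsq v) ^ p) {u : Vec d} (h : c * (1 + nsq v) ≤ 1 + nsq u) :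
    g1 u ≤ η * x := by
  by_cases h0 : g1 u = 0
  · rw [h0]; positivity
  have h1 := hρ u h0
  have hu := sq_nonneg' u
  have hv := sq_nonneg' v
  have hρ0 : 0 < ρ := by linarith
  have h2 : 1 + nsq v ≤ ρ / c := by
    rw [le_div_iff₀ hc]; linarith
  have hP : 0 < (ρ / c) ^ p := by positivity
  have h3 : (1 + nsq v) ^ p ≤ (ρ / c) ^ p := pow_le_pow_left₀ (by linarith) h2 p
  have h4 : C₀ * (ρ / c) ^ p / η ≤ x * (ρ / c) ^ p := hN.trans (mul_le_mul_of_nonneg_left h3 hx)
  rw [div_le_iff₀ hη] at h4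
  have h5 : C₀ * (ρ / c) ^ p ≤ (η * x) * (ρ / c) ^ p := by linarith
  exact (hC u).trans (le_of_mul_le_mul_right h5 hP)

private lemma gn_BB {b : ℝ → ℝ} (hb : Measurable b) (ε : ℝ) :
    Measurable fun m : Vec d => BB b ε (dir m) := by
  have h1 : Measurable fun e : Vec d => BB b ε e := by
    unfold BB
    have h2 : Measurable fun q : Vec d × Vec d => ENNReal.ofReal (bt b ε (dot q.1 q.2)) := by
      have h3 : Continuous fun q : Vec d × Vec d => dot q.1 q.2 := by unfold dot; fun_prop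
      exact ((measurable_bt hb ε).comp h3.measurable).ennreal_ofReal
    exact h2.lintegral_prod_right'
  have h4 : Measurable fun m : Vec d => dir m := by
    unfold dir
    exact (continuous_len.measurable.inv).smul measurable_id
  exact h1.comp h4

/-- cancellation of the part of `g1` -/
private lemma gn_cancel {X Y B A A1 A2 : ℝ≥0∞} {K x : ℝ} (hK : 0 ≤ K) (hx : 0 ≤ x)
    (hE : Y ≤ ENNReal.ofReal (K * x)) (hA : A ≤ A1 + A2) (hA1 : A1 ≤ ENNReal.ofReal x)
    (h : X + ENNReal.ofReal ((K + 2) * x) ≤ B + A) : X + Y + ENNReal.ofReal x ≤ B + A2 := by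
  refine (ENNReal.add_le_add_iff_right (a := ENNReal.ofReal x) ENNReal.ofReal_ne_top).1 ?_
  have e1 : ENNReal.ofReal ((K + 2) * x) = ENNReal.ofReal (K * x) + ENNReal.ofReal x + ENNReal.ofReal x := by
    rw [← ENNReal.ofReal_add (by positivity) hx, ← ENNReal.ofReal_add (by positivity) hx]
    congr 1; ring
  calc X + Y + ENNReal.ofReal x + ENNReal.ofReal x
      ≤ X + ENNReal.ofReal (K * x) + ENNReal.ofReal x + ENNReal.ofReal x := by gcongr
    _ = X + ENNReal.ofReal ((K + 2) * x) := by rw [e1]; ring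
    _ ≤ B + A := h
    _ ≤ B + (A1 + A2) := by gcongr
    _ ≤ B + (ENNReal.ofReal x + A2) := by gcongr
    _ = B + A2 + ENNReal.ofReal x := by ring

theorem gain_nlW (HL : HypL d (1 + a) s b C Ca cb) (ha : -1 ≤ a) (h1 : 2 * s < β) (ha1 : β ≤ 1) {p : ℕ}
    (hp : (d : ℝ) + (1 + a) + 4 ≤ 2 * p) (e : Fin d) :
    ∃ K κ δ₁ ε₀ : ℝ, 0 ≤ K ∧ 0 < κ ∧ 0 < δ₁ ∧ δ₁ ≤ 1 / 2 ∧ 0 < ε₀ ∧
      ∀ C₀ ρ : ℝ, 0 ≤ C₀ → 0 ≤ ρ → ∃ N : ℝ, 0 ≤ N ∧
      ∀ g g1 g2 : Vec d → ℝ, Measurable g → Measurable g1 → Measurable g2 → (∀ u, 0 ≤ g u) →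
      (∀ u, 0 ≤ g1 u) → (∀ u, 0 ≤ g2 u) → (∀ u, g u = g1 u + g2 u) → (∀ u, g1 u ≤ C₀) →
      (∀ u, g1 u ≠ 0 → 1 + nsq u ≤ ρ) →
      ∀ v : Vec d, (∫⁻ m, ENNReal.ofReal (len m ^ (1 + a) * g (v - m))) ≠ ⊤ →
      ∀ P : Vec d → ℝ, PCond δ₁ β v P → (∀ u, g u ≤ TbP p (g v) v P u) →
      N ≤ g v * (1 + nsq v) ^ p → ∀ ε : ℝ, 0 < ε → ε ≤ ε₀ →
      Gn (1 + a) b ε g v +
          ENNReal.ofReal (κ * g v) * ∫⁻ m, ENNReal.ofReal (len m ^ (1 + a) * g1 (v - m)) ≤
        Ls (1 + a) b ε g v +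
        ∫⁻ z, ENNReal.ofReal (K * g v * (g2 z * ((v e - z e) * PhS e a v z))) := by
  classical
  have H := HL.H
  have hs := H.hs
  obtain ⟨θ, hθ, hθ4, hfast⟩ := fast_PW HL h1 ha1 p
  obtain ⟨K₂, hK₂, hexc⟩ := exc_PW (β := β) H hp hθ
  obtain ⟨L, hL, ε₁, hε₁, hfast'⟩ := hfast (K₂ + 1) (by linarith)
  obtain ⟨δ, hδ, hδ1, a₀, ha₀, κ₀, hκ₀, hslow⟩ := slow_PW HL h1 ha1 hp
  obtain ⟨δ₁, hδ₁, hδ₁1, hslow'⟩ := hslow θ hθ
  obtain ⟨KM, hKM, hmed⟩ := med_PW H h1 ha1 p
  obtain ⟨τ, ε₂, hτ, hτ4, hτL, hε₂, hthin⟩ :=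
    thin_boundW HL h1 ha1 p e hL (K₃ := K₂ + 2) (by linarith)
  obtain ⟨τ₁, ε₃, hτ₁, hτ₁4, hτ₁L, hε₃, hall⟩ :=
    all_boundW HL h1 ha1 p hL (K₃ := K₂ + 2) (by linarith)
  obtain ⟨Ks, hKs, hswap⟩ := swap_thin H e hτ (by linarith : τ ≤ 1) (Λ := 2 + 2 * L) (by linarith)
  obtain ⟨Kt, hKt, hswapA⟩ := swap_all H hτ₁ (by linarith : τ₁ ≤ 1) (Λ := 2 + 2 * L) (by linarith)
  obtain ⟨Ka1, hKa1, ham⟩ := am_le H hτ (by linarith : τ ≤ 1)
  obtain ⟨Ka2, hKa2, ham₁⟩ := am_le H hτ₁ (by linarith : τ₁ ≤ 1)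
  set c₁ : ℝ := min (1 / a₀) (δ ^ 2) with hc₁
  have hc₁0 : 0 < c₁ := lt_min (by positivity) (by positivity)
  have hc₁1 : c₁ ≤ 1 := (min_le_right _ _).trans (pow_le_one₀ hδ.le hδ1)
  set c₂ : ℝ := min c₁ (1 / 4) with hc₂
  have hc₂0 : 0 < c₂ := lt_min hc₁0 (by norm_num)
  have hc₂1 : c₂ ≤ c₁ := min_le_left _ _
  have hc₂4 : c₂ ≤ 1 / 4 := min_le_right _ _
  set κ : ℝ := min κ₀ 1 with hκd
  have hκ : 0 < κ := lt_min hκ₀ one_pos
  have hκ1 : κ ≤ 1 := min_le_right _ _
  have hκ0 : κ ≤ κ₀ := min_le_left _ _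
  set η : ℝ := κ / (1 + Kt + Ka1 + Ka2) with hηd
  have hη : 0 < η := by positivity
  have hη1 : η * (1 + Kt + Ka1 + Ka2) = κ := by rw [hηd]; field_simp
  have hηt : Kt * η ≤ κ := by linarith [mul_nonneg hη.le hKa1, mul_nonneg hη.le hKa2]
  have hη3 : Ka1 * η ≤ 1 := by linarith [mul_nonneg hη.le hKt, mul_nonneg hη.le hKa2]
  have hη4 : Ka2 * η ≤ 1 := by linarith [mul_nonneg hη.le hKt, mul_nonneg hη.le hKa1]
  set K₁ : ℝ := KM * (3 + 2 * L) ^ s + K₂ + 1 with hK₁
  have hK₁0 : 0 ≤ K₁ := by positivity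
  set Cz : ℝ := 2 / c₁ ^ p with hCz
  have hCz0 : 0 ≤ Cz := by positivity
  set Ka : ℝ := K₁ * (16 ^ 2 / c₁ ^ 2) with hKa
  set Kb : ℝ := Ks * Cz * 64 with hKb
  have hKa0 : 0 ≤ Ka := by positivity
  have hKb0 : 0 ≤ Kb := by positivity
  refine ⟨Ka + Kb, κ, δ₁, min (min (min ε₁ ε₂) ε₃) (1 / 64), by positivity, hκ, hδ₁, hδ₁1,
    lt_min (lt_min (lt_min hε₁ hε₂) hε₃) (by norm_num), fun C₀ ρ hC₀ hρ0 =>
    ⟨C₀ * (ρ / c₂) ^ p / η, by positivity, ?_⟩⟩
  intro g g1 g2 hg hg1 hg2 hg0 hg10 hg20 hgg hg1C hg1ρ v hfin P hPc ht hN ε hε hεle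
  have hεa : ε ≤ ε₁ :=
    hεle.trans ((min_le_left _ _).trans ((min_le_left _ _).trans (min_le_left _ _)))
  have hεb : ε ≤ ε₂ :=
    hεle.trans ((min_le_left _ _).trans ((min_le_left _ _).trans (min_le_right _ _)))
  have hεd : ε ≤ ε₃ := hεle.trans ((min_le_left _ _).trans (min_le_right _ _))
  have hεc : ε ≤ 1 / 64 := hεle.trans (min_le_right _ _)
  have hgv := hg0 v
  have hv0 : 0 ≤ nsq v := sq_nonneg' v
  have hA : 0 < 1 + nsq v := by linarith
  have hsub : ∀ m : Vec d, v - (v - m) = m := fun m => sub_sub_cancel v m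
  -- the small part
  have hsm : ∀ u : Vec d, c₂ * (1 + nsq v) ≤ 1 + nsq u → g1 u ≤ η * g v := fun u hu =>
    gn_small hc₂0 hη hgv hg1C hg1ρ hN hu
  -- the weight
  set w : Vec d → ℝ := fun z => (v e - z e) * PhS e a v z with hw
  have hw0 : ∀ z, 0 ≤ w z := fun z => VPhS_nonneg e a v z
  have hwm : Measurable w := VPhS_meas e a v
  have hδ₁2 : δ₁ ≤ 1 := by linarith
  have hexcg : ∀ m : Vec d, GEg (1 + a) b ε g (RegS θ L v) v m ≤ ENNReal.ofReal (K₂ * g v) := fun m =>
    (GEg_le H ht (RegS θ L v) v m hε).trans (hexc L hL δ₁ hδ₁2 (g v) (hg0 v) v P hPc m ε hε)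
  have hGMg : ∀ m : Vec d, GMg (1 + a) b ε g (RegS θ L v) v m ≤
      GMg (1 + a) b ε (TbP p (g v) v P) (RegS θ L v) v m := fun m => GMg_le H ht (RegS θ L v) v m hε
  have hGEg : ∀ m : Vec d, GEg (1 + a) b ε g (RegS θ L v) v m ≤
      GEg (1 + a) b ε (TbP p (g v) v P) (RegS θ L v) v m := fun m => GEg_le H ht (RegS θ L v) v m hε
  -- the medium velocities
  set Med : Set (Vec d) := {m | MedR δ a₀ L v (v - m)} with hMed
  have hMedm : MeasurableSet Med :=
    (measurableSet_MedR δ a₀ L v).preimage (measurable_const.sub measurable_id)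
  have hMedB : ∀ m ∈ Med, nsq m ≤ (2 + 2 * L) * (1 + nsq v) := by
    intro m hm
    have h5 : nsq m ≤ 2 * nsq v + 2 * nsq (v - m) := by
      have h6 := nsq_par v (v - m)
      rw [hsub m] at h6
      have h7 := sq_nonneg' (v + (v - m))
      linarith
    have h6 : nsq (v - m) ≤ L * (1 + nsq v) := hm.1
    linarith
  have hMedc : ∀ m ∈ Med, c₁ * (1 + nsq v) ≤ 1 + nsq (v - m) := fun m hm => gn_notslow ha₀ hm.2
  set W1 : Vec d → ℝ≥0∞ := fun m => ENNReal.ofReal (len m ^ (1 + a) * g1 (v - m)) with hW1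
  set W2 : Vec d → ℝ≥0∞ := fun m => ENNReal.ofReal (len m ^ (1 + a) * g2 (v - m)) with hW2
  have hlm : Measurable fun m : Vec d => len m ^ (1 + a) :=
    continuous_len.measurable.pow_const _
  have hl0 : ∀ m : Vec d, 0 ≤ len m ^ (1 + a) := fun m => Real.rpow_nonneg (len_nonneg m) _
  have hg1m : Measurable fun m : Vec d => g1 (v - m) := hg1.comp (measurable_const.sub measurable_id)
  have hg2m : Measurable fun m : Vec d => g2 (v - m) := hg2.comp (measurable_const.sub measurable_id)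
  have hW1m : Measurable W1 := (hlm.mul hg1m).ennreal_ofReal
  have hW2m : Measurable W2 := (hlm.mul hg2m).ennreal_ofReal
  have hWt : ∀ m, ENNReal.ofReal (len m ^ (1 + a) * g (v - m)) = W1 m + W2 m := by
    intro m
    rw [hgg, mul_add, ENNReal.ofReal_add (mul_nonneg (hl0 m) (hg10 _)) (mul_nonneg (hl0 m) (hg20 _))]
  set Th' : Set (Vec d) := {m | |m e| ≤ len m / 16} with hTh'
  have hThm : MeasurableSet Th' := by
    have h2 : Continuous fun m : Vec d => |m e| := (continuous_apply e).abs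
    have h3 : Continuous fun m : Vec d => len m / 16 := continuous_len.div_const _
    exact (isClosed_le h2 h3).measurableSet
  set κx : ℝ≥0∞ := ENNReal.ofReal (κ * g v) with hκx
  have hκx1 : κx ≤ ENNReal.ofReal (g v) :=
    ENNReal.ofReal_le_ofReal (mul_le_of_le_one_left hgv hκ1)
  have hκx0 : κx ≤ ENNReal.ofReal (κ₀ * g v) :=
    ENNReal.ofReal_le_ofReal (mul_le_mul_of_nonneg_right hκ0 hgv)
  set G : Vec d → ℝ≥0∞ := fun m =>
    GMg (1 + a) b ε g (RegS θ L v) v m + GEg (1 + a) b ε g (RegS θ L v) v m with hG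
  set Bm : Vec d → ℝ≥0∞ := fun m => ENNReal.ofReal (g v) * BB b ε (dir m) with hBmd
  -- slow and fast
  have hSF : ∀ m : Vec d, m ≠ 0 → m ∉ Med → G m + κx ≤ Bm m := by
    intro m hm hmed'
    have hE := hexcg m
    by_cases hsl : SlowR δ a₀ v (v - m)
    · have h2 := hslow' L hL (g v) hgv v P hPc m hm hsl ε hε hεc
      exact (add_le_add (add_le_add (hGMg m) (hGEg m)) hκx0).trans h2
    by_cases hfa : L * (1 + nsq v) < nsq (v - m)
    · have h2 := hfast' δ₁ hδ₁.le hδ₁2 (g v) hgv v P hPc m hm hfa ε hε hεa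
      have h2 := (add_le_add_left (hGMg m) (ENNReal.ofReal ((K₂ + 1) * g v))).trans h2
      have e2 : ENNReal.ofReal ((K₂ + 1) * g v) = ENNReal.ofReal (K₂ * g v) + ENNReal.ofReal (g v) := by
        rw [← ENNReal.ofReal_add (by positivity) hgv]
        congr 1; ring
      rw [e2, ← add_assoc] at h2
      exact (add_le_add (add_le_add_right hE _) hκx1).trans h2
    rw [not_lt] at hfa
    exact absurd ⟨hfa, hsl⟩ hmed'
  have hnear : ∀ (t : ℝ), 0 < t → t ^ 2 * (2 + 2 * L) ≤ 1 / 8 → ∀ m ∈ Med, ∀ h ∈ AnS t m,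
      g1 (v + h) ≤ η * g v := by
    intro t ht0 htL m hm h hh'
    refine hsm _ ?_
    have h3 : nsq h ≤ 1 / 8 * (1 + nsq v) := by
      calc nsq h ≤ t ^ 2 * nsq m := hh'.2
        _ ≤ t ^ 2 * ((2 + 2 * L) * (1 + nsq v)) :=
            mul_le_mul_of_nonneg_left (hMedB m hm) (sq_nonneg _)
        _ = (t ^ 2 * (2 + 2 * L)) * (1 + nsq v) := by ring
        _ ≤ _ := mul_le_mul_of_nonneg_right htL hA.le
    have h4 := gn_near' h3
    have h5 : c₂ * (1 + nsq v) ≤ 1 / 4 * (1 + nsq v) := mul_le_mul_of_nonneg_right hc₂4 hA.le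
    linarith
  have hηx : 0 ≤ η * g v := by positivity
  -- outer variable with `g1`
  have hP1 : ∀ m : Vec d, m ≠ 0 →
      G m + κx ≤ Bm m + Med.indicator (fun m => AM τ₁ (1 + a) b ε g2 v m) m := by
    intro m hm
    by_cases hmed' : m ∈ Med
    · rw [indicator_of_mem hmed']
      have hE := hexcg m
      have h2 := hall θ δ₁ hδ₁.le hδ₁1 (g v) hgv g v P hPc ht m hm hmed'.1 ε hε hεd
      have h3 : AM τ₁ (1 + a) b ε g1 v m ≤ ENNReal.ofReal (g v) := by
        refine (ham₁ g1 (η * g v) hηx v m (hnear τ₁ hτ₁ hτ₁L m hmed') ε hε).trans ?_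
        refine ENNReal.ofReal_le_ofReal ?_
        have h4 := mul_le_mul_of_nonneg_right hη4 hgv
        linarith
      exact (add_le_add_right hκx1 _).trans
        (gn_cancel hK₂ hgv hE (AM_add_le H.bm τ₁ (1 + a) ε hg1 hgg v m) h3 h2)
    · rw [indicator_of_notMem hmed', add_zero]
      exact hSF m hm hmed'
  -- outer variable with `g2`
  have hP2 : ∀ m : Vec d, m ≠ 0 → G m + κx ≤ Bm m +
      ((Med \ Th').indicator (fun _ => ENNReal.ofReal (K₁ * g v)) m +
        (Med ∩ Th').indicator (fun m => TM e τ (1 + a) b ε g2 v m) m) := by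
    intro m hm
    by_cases hmed' : m ∈ Med
    · have hE := hexcg m
      by_cases hth : m ∈ Th'
      · have h2 := hthin θ δ₁ hδ₁.le hδ₁1 (g v) hgv g v P hPc ht m hm hmed'.1 hth ε hε hεb
        have h3 : TM e τ (1 + a) b ε g1 v m ≤ ENNReal.ofReal (g v) := by
          refine (TM_le_AM e τ (1 + a) b ε g1 v m).trans ?_
          refine (ham g1 (η * g v) hηx v m (hnear τ hτ hτL m hmed') ε hε).trans ?_
          refine ENNReal.ofReal_le_ofReal ?_
          have h4 := mul_le_mul_of_nonneg_right hη3 hgv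
          linarith
        rw [indicator_of_mem (show m ∈ Med ∩ Th' from ⟨hmed', hth⟩)]
        refine ((add_le_add_right hκx1 _).trans
          (gn_cancel hK₂ hgv hE (TM_add_le H.bm e τ (1 + a) ε hg1 hgg v m) h3 h2)).trans ?_
        refine add_le_add_right ?_ _
        exact le_add_self
      · have h2 := (hGMg m).trans (hmed θ L δ₁ hδ₁.le hδ₁2 (g v) hgv v P hPc m hm ε hε)
        rw [indicator_of_mem (show m ∈ Med \ Th' from ⟨hmed', hth⟩)]
        have hm0 : 0 ≤ nsq m := sq_nonneg' m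
        have hQ0 : 0 ≤ nsq m / (1 + nsq v) := by positivity
        have hQ : (1 + nsq m / (1 + nsq v)) ^ s ≤ (3 + 2 * L) ^ s := by
          refine Real.rpow_le_rpow (by positivity) ?_ hs.le
          have h8 : nsq m / (1 + nsq v) ≤ 2 + 2 * L := by
            rw [div_le_iff₀ hA]
            exact hMedB m hmed'
          linarith
        have hP0 : 0 ≤ (1 + nsq m / (1 + nsq v)) ^ s := Real.rpow_nonneg (by linarith) _
        have h9 : G m + κx ≤ Bm m + ENNReal.ofReal (K₁ * g v) := by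
          calc G m + κx ≤ (Bm m + ENNReal.ofReal (KM * g v * (1 + nsq m / (1 + nsq v)) ^ s) +
                ENNReal.ofReal (K₂ * g v)) + ENNReal.ofReal (g v) :=
                add_le_add (add_le_add h2 hE) hκx1
            _ = Bm m + (ENNReal.ofReal (KM * g v * (1 + nsq m / (1 + nsq v)) ^ s) +
                ENNReal.ofReal (K₂ * g v) + ENNReal.ofReal (g v)) := by ring
            _ ≤ _ := by
                rw [← ENNReal.ofReal_add (by positivity) (by positivity),
                  ← ENNReal.ofReal_add (by positivity) (by positivity)]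
                refine add_le_add_right (ENNReal.ofReal_le_ofReal ?_) _
                have := mul_le_mul_of_nonneg_left hQ (mul_nonneg hKM hgv)
                rw [hK₁]
                linarith
        refine h9.trans ?_
        refine add_le_add_right ?_ _
        exact le_self_add
    · exact (hSF m hm hmed').trans le_self_add
  -- remainder with `g1` outside
  set Bset : Set (Vec d) := {m : Vec d | nsq m ≤ (2 + 2 * L) * (1 + nsq v)} with hBset
  have hBm : MeasurableSet Bset := (isClosed_le continuous_sq continuous_const).measurableSet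
  have hR3 : ∫⁻ m, W1 m * Med.indicator (fun m => AM τ₁ (1 + a) b ε g2 v m) m ≤
      κx * ∫⁻ m, W2 m := by
    have hpt : ∀ m : Vec d, W1 m * Med.indicator (fun m => AM τ₁ (1 + a) b ε g2 v m) m ≤
        ENNReal.ofReal (η * g v) * (Bset.indicator
          (fun m => ENNReal.ofReal (len m ^ (1 + a)) * AM τ₁ (1 + a) b ε g2 v m) m) := by
      intro m
      by_cases hm : m ∈ Med
      · have h3 : g1 (v - m) ≤ η * g v := by
          refine hsm _ (le_trans ?_ (hMedc m hm))
          exact mul_le_mul_of_nonneg_right hc₂1 hA.le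
        rw [indicator_of_mem hm, indicator_of_mem (show m ∈ Bset from hMedB m hm), ← mul_assoc, hW1]
        refine mul_le_mul_left ?_ _
        rw [← ENNReal.ofReal_mul hηx]
        refine ENNReal.ofReal_le_ofReal ?_
        calc len m ^ (1 + a) * g1 (v - m) ≤ len m ^ (1 + a) * (η * g v) :=
              mul_le_mul_of_nonneg_left h3 (hl0 m)
          _ = _ := by ring
      · rw [indicator_of_notMem hm, mul_zero]
        exact zero_le
    refine (lintegral_mono hpt).trans ?_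
    rw [lintegral_const_mul' _ _ ENNReal.ofReal_ne_top, lintegral_indicator hBm]
    refine (mul_le_mul_right (hswapA g2 hg2 hg20 v ε hε) _).trans ?_
    rw [← mul_assoc, ← ENNReal.ofReal_mul hηx]
    refine mul_le_mul' ?_ ?_
    · refine ENNReal.ofReal_le_ofReal ?_
      have h4 := mul_le_mul_of_nonneg_right hηt hgv
      linarith
    · exact setLIntegral_le_lintegral _ _
  -- remainder, transversal
  have hRa : ∀ m : Vec d, W2 m * (Med \ Th').indicator (fun _ => ENNReal.ofReal (K₁ * g v)) m ≤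
      ENNReal.ofReal (Ka * g v * (g2 (v - m) * w (v - m))) := by
    intro m
    by_cases hm : m ∈ Med \ Th'
    · rw [indicator_of_mem hm, hW2]
      have hgz := hg20 (v - m)
      simp only
      rw [← ENNReal.ofReal_mul (mul_nonneg (hl0 m) hgz)]
      refine ENNReal.ofReal_le_ofReal ?_
      have h2 : c₁ * (1 + nsq v) ≤ 1 + nsq (v - m) := hMedc m hm.1
      have h4 : v e - (v - m) e = m e := by simp
      have h6 : len m / 16 < |m e| := by
        have h6 : ¬ (|m e| ≤ len m / 16) := hm.2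
        push Not at h6
        exact h6
      have h5 : len m ≤ 16 * |m e| := by linarith
      have hm0 : 0 < len m := by
        have := abs_coord_le m e
        rcases (len_nonneg m).eq_or_lt with h7 | h7
        · rw [← h7] at this h6
          linarith
        · exact h7
      have h3 := gn_wt (a := a) hc₁0.le hc₁1 (by rw [hsub m]; exact hm0) h2 e (by rw [hsub m, h4]; exact h5)
      rw [hsub m] at h3
      have h7 : len m ^ (1 + a) ≤ 16 ^ 2 / c₁ ^ 2 * w (v - m) := by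
        rw [div_mul_eq_mul_div, le_div_iff₀ (by positivity)]
        rw [hw]
        linarith
      calc len m ^ (1 + a) * g2 (v - m) * (K₁ * g v)
          ≤ (16 ^ 2 / c₁ ^ 2 * w (v - m)) * g2 (v - m) * (K₁ * g v) := by gcongr
        _ = _ := by rw [hKa]; ring
    · rw [indicator_of_notMem hm, mul_zero]
      exact zero_le
  -- remainder, thin
  have hRb : ∀ m : Vec d, W2 m * (Med ∩ Th').indicator (fun m => TM e τ (1 + a) b ε g2 v m) m ≤
      ENNReal.ofReal (Cz * g v) * (Bset.indicator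
        (fun m => ENNReal.ofReal (len m ^ (1 + a)) * TM e τ (1 + a) b ε g2 v m) m) := by
    intro m
    by_cases hm : m ∈ Med ∩ Th'
    · have h2 : c₁ * (1 + nsq v) ≤ 1 + nsq (v - m) := hMedc m hm.1
      have h3 := gn_val hδ₁2 hc₁0 hg0 hPc ht h2
      have h5 : g2 (v - m) ≤ Cz * g v := by
        have := hgg (v - m)
        have := hg10 (v - m)
        linarith
      rw [indicator_of_mem hm, indicator_of_mem (show m ∈ Bset from hMedB m hm.1), ← mul_assoc, hW2]
      refine mul_le_mul_left ?_ _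
      rw [← ENNReal.ofReal_mul (by positivity)]
      refine ENNReal.ofReal_le_ofReal ?_
      calc len m ^ (1 + a) * g2 (v - m) ≤ len m ^ (1 + a) * (Cz * g v) :=
            mul_le_mul_of_nonneg_left h5 (hl0 m)
        _ = _ := by ring
    · rw [indicator_of_notMem hm, mul_zero]
      exact zero_le
  have hSm : MeasurableSet {m : Vec d | nsq m ≤ τ ^ 2 * (2 + 2 * L) * (1 + nsq v) ∧
      len m ≤ 2 * |m e|} := by
    refine (isClosed_le continuous_sq continuous_const).measurableSet.inter ?_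
    have h2 : Continuous fun m : Vec d => 2 * |m e| := ((continuous_apply e).abs).const_mul 2 |>.congr
      (fun _ => rfl)
    exact (isClosed_le continuous_len h2).measurableSet
  have hswap' : ∫⁻ m, W2 m * (Med ∩ Th').indicator (fun m => TM e τ (1 + a) b ε g2 v m) m ≤
      ∫⁻ m, ENNReal.ofReal (Kb * g v * (g2 (v - m) * w (v - m))) := by
    refine (lintegral_mono hRb).trans ?_
    rw [lintegral_const_mul' _ _ ENNReal.ofReal_ne_top, lintegral_indicator hBm]
    refine (mul_le_mul_right (hswap g2 hg2 hg20 v ε hε) _).trans ?_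
    rw [← lintegral_indicator hSm, ← lintegral_const_mul' _ _ ENNReal.ofReal_ne_top,
      ← lintegral_const_mul' _ _ ENNReal.ofReal_ne_top]
    refine lintegral_mono_ae ?_
    filter_upwards [ae_ne H.hd1 (0 : Vec d)] with m hmne
    by_cases hm : m ∈ {m : Vec d | nsq m ≤ τ ^ 2 * (2 + 2 * L) * (1 + nsq v) ∧ len m ≤ 2 * |m e|}
    · rw [indicator_of_mem hm, ← ENNReal.ofReal_mul hKs, ← ENNReal.ofReal_mul (by positivity)]
      refine ENNReal.ofReal_le_ofReal ?_
      have hgz := hg20 (v - m)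
      have h2 : 1 / 4 * (1 + nsq v) ≤ 1 + nsq (v - m) := by
        refine gn_near (hm.1.trans ?_)
        exact mul_le_mul_of_nonneg_right hτL hA.le
      have h4 : v e - (v - m) e = m e := by simp
      have hm0 : 0 < len m := by
        rcases (len_nonneg m).eq_or_lt with h7 | h7
        · exfalso
          apply hmne
          symm
          funext i
          have h8 := abs_coord_le m i
          rw [← h7] at h8
          exact abs_nonpos_iff.1 h8
        · exact h7
      have h3 := gn_wt (a := a) (by norm_num) (by norm_num : (1 / 4 : ℝ) ≤ 1) (by rw [hsub m]; exact hm0)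
        h2 e (by rw [hsub m, h4]; exact hm.2)
      rw [hsub m] at h3
      have h7 : len m ^ (1 + a) ≤ 64 * w (v - m) := by
        rw [hw]
        linarith
      calc Cz * g v * (Ks * (len m ^ (1 + a) * g2 (v - m)))
          ≤ Cz * g v * (Ks * ((64 * w (v - m)) * g2 (v - m))) := by gcongr
        _ = _ := by rw [hKb]; ring
    · rw [indicator_of_notMem hm, mul_zero, mul_zero]
      exact zero_le
  -- assembly
  have hW12m : Measurable fun m => W1 m + W2 m := hW1m.add hW2m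
  have hAm : Measurable fun m : Vec d => (W1 m + W2 m) * Bm m :=
    hW12m.mul ((gn_BB H.bm ε).const_mul _)
  have hBm' : Measurable fun m : Vec d =>
      W2 m * (Med \ Th').indicator (fun _ => ENNReal.ofReal (K₁ * g v)) m :=
    hW2m.mul (measurable_const.indicator (hMedm.diff hThm))
  have hCm' : Measurable fun m : Vec d =>
      W1 m * Med.indicator (fun m => AM τ₁ (1 + a) b ε g2 v m) m :=
    hW1m.mul ((AM_meas H.bm τ₁ (1 + a) ε hg2 v).indicator hMedm)
  have hKam : Measurable fun m : Vec d => ENNReal.ofReal (Ka * g v * (g2 (v - m) * w (v - m))) :=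
    ((hg2m.mul (hwm.comp (measurable_const.sub measurable_id))).const_mul _).ennreal_ofReal
  have hW2f : ∫⁻ m, W2 m ≠ ⊤ := by
    refine ne_top_of_le_ne_top hfin (lintegral_mono fun m => ?_)
    rw [hWt m]
    exact le_add_self
  have hκf : κx * ∫⁻ m, W2 m ≠ ⊤ := ENNReal.mul_ne_top ENNReal.ofReal_ne_top hW2f
  have e1 : ∫⁻ z, ENNReal.ofReal ((Ka + Kb) * g v * (g2 z * ((v e - z e) * PhS e a v z))) =
      ∫⁻ m, ENNReal.ofReal ((Ka + Kb) * g v * (g2 (v - m) * w (v - m))) :=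
    (lintegral_sub_left_eq_self
      (fun z => ENNReal.ofReal ((Ka + Kb) * g v * (g2 z * ((v e - z e) * PhS e a v z)))) v).symm
  have e2 : ∫⁻ m, ENNReal.ofReal ((Ka + Kb) * g v * (g2 (v - m) * w (v - m))) =
      (∫⁻ m, ENNReal.ofReal (Ka * g v * (g2 (v - m) * w (v - m)))) +
        ∫⁻ m, ENNReal.ofReal (Kb * g v * (g2 (v - m) * w (v - m))) := by
    rw [← lintegral_add_left hKam]
    refine lintegral_congr fun m => ?_
    have h2 : 0 ≤ g2 (v - m) * w (v - m) := mul_nonneg (hg20 _) (hw0 _)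
    rw [← ENNReal.ofReal_add (by positivity) (by positivity)]
    congr 1; ring
  have hLs : Ls (1 + a) b ε g v = ∫⁻ m, (W1 m + W2 m) * Bm m := by
    rw [loss_eq H.hd (1 + a) H.bm H.bd hε hg hg0 v]
    refine lintegral_congr fun m => ?_
    rw [hWt m]
  have hGn : Gn (1 + a) b ε g v ≤ ∫⁻ m, (W1 m + W2 m) * G m := by
    refine (gain_splitg H.hd (1 + a) H.bm H.bd hε hg hg0 (measurableSet_RegS θ L v) v).trans
      (le_of_eq ?_)
    refine lintegral_congr fun m => ?_
    rw [hWt m]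
  rw [e1, e2, hLs]
  refine (ENNReal.add_le_add_iff_right hκf).1 ?_
  calc Gn (1 + a) b ε g v + κx * (∫⁻ m, W1 m) + κx * (∫⁻ m, W2 m)
      ≤ (∫⁻ m, (W1 m + W2 m) * G m) + ∫⁻ m, (W1 m + W2 m) * κx := by
        rw [add_assoc, ← mul_add, ← lintegral_add_left hW1m, lintegral_mul_const _ hW12m,
          mul_comm κx]
        exact add_le_add_left hGn _
    _ = ∫⁻ m, ((W1 m + W2 m) * G m + (W1 m + W2 m) * κx) := by
        rw [lintegral_add_right _ (hW12m.mul_const _)]
    _ ≤ ∫⁻ m, ((W1 m + W2 m) * Bm m +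
          (W2 m * (Med \ Th').indicator (fun _ => ENNReal.ofReal (K₁ * g v)) m +
            (W1 m * Med.indicator (fun m => AM τ₁ (1 + a) b ε g2 v m) m +
              W2 m * (Med ∩ Th').indicator (fun m => TM e τ (1 + a) b ε g2 v m) m))) := by
        refine lintegral_mono_ae ?_
        filter_upwards [ae_ne H.hd1 (0 : Vec d)] with m hm
        have h2 := mul_le_mul_right (hP1 m hm.symm) (W1 m)
        have h3 := mul_le_mul_right (hP2 m hm.symm) (W2 m)
        calc (W1 m + W2 m) * G m + (W1 m + W2 m) * κx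
            = W1 m * (G m + κx) + W2 m * (G m + κx) := by ring
          _ ≤ _ := add_le_add h2 h3
          _ = _ := by ring
    _ = (∫⁻ m, (W1 m + W2 m) * Bm m) +
        ((∫⁻ m, W2 m * (Med \ Th').indicator (fun _ => ENNReal.ofReal (K₁ * g v)) m) +
          ((∫⁻ m, W1 m * Med.indicator (fun m => AM τ₁ (1 + a) b ε g2 v m) m) +
            ∫⁻ m, W2 m * (Med ∩ Th').indicator (fun m => TM e τ (1 + a) b ε g2 v m) m)) := by
        rw [lintegral_add_left hAm, lintegral_add_left hBm', lintegral_add_left hCm']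
    _ ≤ (∫⁻ m, (W1 m + W2 m) * Bm m) +
        ((∫⁻ m, ENNReal.ofReal (Ka * g v * (g2 (v - m) * w (v - m)))) +
          (κx * (∫⁻ m, W2 m) +
            ∫⁻ m, ENNReal.ofReal (Kb * g v * (g2 (v - m) * w (v - m))))) := by
        refine add_le_add_right (add_le_add (lintegral_mono hRa) (add_le_add hR3 hswap')) _
    _ = _ := by ring

end Pool.Agent.H82.DG
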