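import Pool.Agent.H15.G1.Defs
import Pool.Agent.H48.PL.JB
import Pool.Agent.H82.DG.GainD

/-!
# The weight `PhR` for `-1 < a ≤ 0` (dilute planar gas)

`phiR e a r y = min(1,|y|/r) y_e |y|^(a-1)` and `PhR e a r v w = min(1,⟨w⟩/⟨v⟩)^4 phiR(v-w)` (Pool/Agent/H15/G1/Defs.lean).
All constants are absolute; the bounds are uniform in `r > 0`.
-/

set_option autoImplicit false

open MeasureTheory Set Filter Topology Pool.Agent.H25.Kin Pool.Agent.H82.BK Pool.Agent.H82.CM
open Pool.Agent.H48.PL Pool.Agent.H48.PI Pool.Agent.H48.PW Pool.Agent.H15.G1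

namespace Pool.Agent.H82.DG

variable {d : ℕ} {a r : ℝ}

/-! ### one real variable -/

private lemma wg_pow (ha : -1 < a) {x y : ℝ} (hx : 0 < x) (hxy : x ≤ y) :
    x ^ (a - 1) - y ^ (a - 1) ≤ 2 * (x ^ (a - 1) * ((y - x) / x)) := by
  obtain ⟨t, ht⟩ : ∃ t, t = y / x := ⟨_, rfl⟩
  have ht1 : 1 ≤ t := by rw [ht]; exact (one_le_div hx).2 hxy
  have ht0 : 0 < t := by linarith
  have hyt : y = t * x := by rw [ht]; field_simp
  have h1 : t ^ (-2 : ℝ) ≤ t ^ (a - 1) := Real.rpow_le_rpow_of_exponent_le ht1 (by linarith)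
  have h2 : 1 - t ^ (-2 : ℝ) ≤ 2 * (t - 1) := by
    have e1 : t ^ (-2 : ℝ) = (t ^ 2)⁻¹ := by
      rw [Real.rpow_neg ht0.le]
      congr 1
      exact_mod_cast Real.rpow_natCast t 2
    have h3 : 3 - 2 * t ≤ (t ^ 2)⁻¹ := by
      rw [inv_eq_one_div, le_div_iff₀ (by positivity)]
      nlinarith [mul_nonneg (sq_nonneg (t - 1)) (by linarith : (0 : ℝ) ≤ 2 * t + 1)]
    rw [e1]
    linarith
  have h4 : y ^ (a - 1) = t ^ (a - 1) * x ^ (a - 1) := by
    rw [hyt, Real.mul_rpow ht0.le hx.le]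
  have h5 : (y - x) / x = t - 1 := by rw [ht]; field_simp
  have h6 : 0 ≤ x ^ (a - 1) := Real.rpow_nonneg hx.le _
  rw [h4, h5]
  nlinarith

private lemma wg_a1 {x : ℝ} (hx : 0 < x) : x ^ (a - 1) * x = x ^ a := by
  nth_rewrite 2 [← Real.rpow_one x]
  rw [← Real.rpow_add hx]
  congr 1; ring

/-- `|min(1,Y/r) - min(1,x/r)| ≤ (Y-x)/x` for `0 < x ≤ Y` -/
private lemma wg_cut (hr : 0 < r) {x Y : ℝ} (hx : 0 < x) (hxY : x ≤ Y) :
    |min 1 (Y / r) - min 1 (x / r)| ≤ (Y - x) / x := by
  have h0 : 0 ≤ (Y - x) / x := div_nonneg (by linarith) hx.le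
  rcases le_total r x with h | h
  · have e1 : min 1 (x / r) = 1 := min_eq_left ((one_le_div hr).2 h)
    have e2 : min 1 (Y / r) = 1 := min_eq_left ((one_le_div hr).2 (h.trans hxY))
    rw [e1, e2, sub_self, abs_zero]
    exact h0
  · have e1 : min 1 (x / r) = x / r := min_eq_right ((div_le_one hr).2 h)
    have h1 : min 1 (x / r) ≤ min 1 (Y / r) := min_le_min_left _ (div_le_div_of_nonneg_right hxY hr.le)
    rw [abs_of_nonneg (by linarith), e1]
    have h2 : min 1 (Y / r) ≤ Y / r := min_le_right _ _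
    have h3 : Y / r - x / r = (Y - x) / r := by ring
    have h4 : (Y - x) / r ≤ (Y - x) / x := div_le_div_of_nonneg_left (by linarith) hx h
    linarith

/-! ### the function `phiR` -/

lemma phi_absN (e : Fin d) (y : Vec d) : |phi e a y| ≤ len y ^ a := by
  unfold phi
  have h0 := len_nonneg y
  have h1 := abs_coord_le y e
  have h2 : 0 ≤ len y ^ (a - 1) := Real.rpow_nonneg h0 _
  rcases h0.eq_or_lt with h | h
  · have h3 : y e = 0 := abs_nonpos_iff.1 (by rw [h]; exact h1)
    rw [h3, zero_mul, abs_zero]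
    exact Real.rpow_nonneg h0 _
  · rw [abs_mul, abs_of_nonneg h2, ← wg_a1 (a := a) h, mul_comm]
    exact mul_le_mul_of_nonneg_left h1 h2

private lemma wg_m0 (hr : 0 < r) (y : Vec d) : 0 ≤ min 1 (len y / r) :=
  le_min zero_le_one (div_nonneg (len_nonneg y) hr.le)

lemma phiR_absN (hr : 0 < r) (e : Fin d) (y : Vec d) : |phiR e a r y| ≤ len y ^ a := by
  unfold phiR
  rw [abs_mul, abs_of_nonneg (wg_m0 hr y)]
  calc min 1 (len y / r) * |phi e a y| ≤ 1 * len y ^ a :=
        mul_le_mul (min_le_left _ _) (phi_absN e y) (abs_nonneg _) zero_le_one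
    _ = _ := one_mul _

/-- `|phiR y| ≤ |y|^(1+a)/r` -/
lemma phiR_smallN (ha : -1 < a) (hr : 0 < r) (e : Fin d) (y : Vec d) :
    |phiR e a r y| ≤ len y ^ (1 + a) / r := by
  unfold phiR
  rw [abs_mul, abs_of_nonneg (wg_m0 hr y)]
  have h0 := len_nonneg y
  have h1 := phi_absN (a := a) e y
  have h2 : 0 ≤ len y ^ a := Real.rpow_nonneg h0 _
  have h3 : min 1 (len y / r) * |phi e a y| ≤ len y / r * len y ^ a :=
    mul_le_mul (min_le_right _ _) h1 (abs_nonneg _) (div_nonneg h0 hr.le)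
  refine h3.trans (le_of_eq ?_)
  rcases h0.eq_or_lt with h | h
  · rw [← h, Real.zero_rpow (by linarith : 1 + a ≠ 0)]
    simp
  · rw [Real.rpow_add h, Real.rpow_one]
    ring

lemma phiR_bdN (ha : -1 < a) (ha0 : a ≤ 0) (hr : 0 < r) (e : Fin d) (y : Vec d) :
    |phiR e a r y| ≤ r ^ a := by
  rcases le_total r (len y) with h | h
  · exact (phiR_absN hr e y).trans (Real.rpow_le_rpow_of_nonpos hr h ha0)
  · refine (phiR_smallN ha hr e y).trans ?_
    have h1 : len y ^ (1 + a) ≤ r ^ (1 + a) := Real.rpow_le_rpow (len_nonneg y) h (by linarith)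
    rw [div_le_iff₀ hr]
    refine h1.trans (le_of_eq ?_)
    rw [Real.rpow_add hr, Real.rpow_one]
    ring

lemma phiR_contN (ha : -1 < a) (hr : 0 < r) (e : Fin d) : Continuous (phiR e a r : Vec d → ℝ) := by
  rw [continuous_iff_continuousAt]
  intro y
  rcases (len_nonneg y).eq_or_lt with h | h
  · have e0 : phiR e a r y = 0 := by
      have h1 := phiR_smallN ha hr e y
      rw [← h, Real.zero_rpow (by linarith : 1 + a ≠ 0), zero_div] at h1
      exact abs_nonpos_iff.1 h1
    unfold ContinuousAt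
    rw [e0]
    have h2 : Tendsto (fun z : Vec d => len z ^ (1 + a) / r) (𝓝 y) (𝓝 0) := by
      have h3 : Continuous fun z : Vec d => len z ^ (1 + a) / r :=
        (continuous_len.rpow_const fun z => Or.inr (by linarith)).div_const _
      have h4 := h3.tendsto y
      rwa [← h, Real.zero_rpow (by linarith : 1 + a ≠ 0), zero_div] at h4
    exact squeeze_zero_norm (fun z => by rw [Real.norm_eq_abs]; exact phiR_smallN ha hr e z) h2
  · unfold phiR phi
    have h1 : ContinuousAt (fun z : Vec d => min 1 (len z / r)) y :=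
      (continuous_const.min (continuous_len.div_const _)).continuousAt
    have h2 : ContinuousAt (fun z : Vec d => len z ^ (a - 1)) y :=
      continuous_len.continuousAt.rpow_const (Or.inl h.ne')
    exact h1.mul ((continuous_apply e).continuousAt.mul h2)

private lemma wg_lenlip (y z : Vec d) : len y - len z ≤ len (y - z) := by
  linarith [len_le_add_sub y z]

/-- increments of `phiR`, uniform in `r` -/
theorem phiR_incN (ha : -1 < a) (ha0 : a ≤ 0) (hr : 0 < r) (e : Fin d) {y z : Vec d} (hz : 0 < len z)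
    (hzy : len z ≤ len y) :
    |phiR e a r y - phiR e a r z| ≤ 4 * (len z ^ a * min 1 (len (y - z) / len z)) := by
  obtain ⟨x, hx⟩ : ∃ x, x = len z := ⟨_, rfl⟩
  obtain ⟨Y, hY⟩ : ∃ Y, Y = len y := ⟨_, rfl⟩
  obtain ⟨δ, hδ⟩ : ∃ δ, δ = len (y - z) := ⟨_, rfl⟩
  have hx0 : 0 < x := by rw [hx]; exact hz
  have hxY : x ≤ Y := by rw [hx, hY]; exact hzy
  have hY0 : 0 < Y := hx0.trans_le hxY
  have hδ0 : 0 ≤ δ := by rw [hδ]; exact len_nonneg _
  have hYx : Y - x ≤ δ := by rw [hx, hY, hδ]; exact wg_lenlip y z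
  have hxa : 0 < x ^ a := Real.rpow_pos_of_pos hx0 _
  have hx1 : 0 < x ^ (a - 1) := Real.rpow_pos_of_pos hx0 _
  have hdx : δ / x = δ * x⁻¹ := div_eq_mul_inv _ _
  have e1 : x ^ (a - 1) = x ^ a * x⁻¹ := by
    rw [← wg_a1 (a := a) hx0]; field_simp
  have hYa : Y ^ (a - 1) ≤ x ^ (a - 1) := Real.rpow_le_rpow_of_nonpos hx0 hxY (by linarith)
  have hYa0 : 0 ≤ Y ^ (a - 1) := Real.rpow_nonneg hY0.le _
  -- first bound
  have hA : |phi e a y - phi e a z| ≤ 3 * (x ^ a * (δ / x)) := by
    have h1 : |y e - z e| ≤ δ := by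
      rw [hδ]; exact abs_coord_le (y - z) e
    have h2 : |z e| ≤ x := by rw [hx]; exact abs_coord_le z e
    have h3 : phi e a y - phi e a z = (y e - z e) * Y ^ (a - 1) - z e * (x ^ (a - 1) - Y ^ (a - 1)) := by
      unfold phi
      rw [← hx, ← hY]; ring
    have h4 := wg_pow ha hx0 hxY
    have h5 : x ^ (a - 1) * ((Y - x) / x) ≤ x ^ (a - 1) * (δ / x) :=
      mul_le_mul_of_nonneg_left (div_le_div_of_nonneg_right hYx hx0.le) hx1.le
    rw [h3]
    calc |(y e - z e) * Y ^ (a - 1) - z e * (x ^ (a - 1) - Y ^ (a - 1))|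
        ≤ |(y e - z e) * Y ^ (a - 1)| + |z e * (x ^ (a - 1) - Y ^ (a - 1))| := abs_sub _ _
      _ = |y e - z e| * Y ^ (a - 1) + |z e| * (x ^ (a - 1) - Y ^ (a - 1)) := by
          rw [abs_mul, abs_mul, abs_of_nonneg hYa0, abs_of_nonneg (sub_nonneg.2 hYa)]
      _ ≤ δ * x ^ (a - 1) + x * (2 * (x ^ (a - 1) * (δ / x))) := by
          refine add_le_add (mul_le_mul h1 hYa hYa0 hδ0) (mul_le_mul h2 (by linarith)
            (sub_nonneg.2 hYa) hx0.le)
      _ = _ := by rw [e1]; field_simp; ring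
  have hB : |phiR e a r y - phiR e a r z| ≤ 4 * (x ^ a * (δ / x)) := by
    have h1 : phiR e a r y - phiR e a r z = min 1 (Y / r) * (phi e a y - phi e a z) +
        (min 1 (Y / r) - min 1 (x / r)) * phi e a z := by
      unfold phiR
      rw [← hx, ← hY]; ring
    have h2 := wg_cut hr hx0 hxY
    have h3 : |phi e a z| ≤ x ^ a := by rw [hx]; exact phi_absN e z
    have hm0 : 0 ≤ min 1 (Y / r) := le_min zero_le_one (div_nonneg hY0.le hr.le)
    have h4 : (Y - x) / x ≤ δ / x := div_le_div_of_nonneg_right hYx hx0.le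
    rw [h1]
    calc |min 1 (Y / r) * (phi e a y - phi e a z) + (min 1 (Y / r) - min 1 (x / r)) * phi e a z|
        ≤ |min 1 (Y / r) * (phi e a y - phi e a z)| + |(min 1 (Y / r) - min 1 (x / r)) * phi e a z| :=
          abs_add_le _ _
      _ = min 1 (Y / r) * |phi e a y - phi e a z| + |min 1 (Y / r) - min 1 (x / r)| * |phi e a z| := by
          rw [abs_mul, abs_mul, abs_of_nonneg hm0]
      _ ≤ 1 * (3 * (x ^ a * (δ / x))) + δ / x * x ^ a :=
          add_le_add (mul_le_mul (min_le_left _ _) hA (abs_nonneg _) zero_le_one)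
            (mul_le_mul (h2.trans h4) h3 (abs_nonneg _) (by positivity))
      _ = _ := by ring
  have hC : |phiR e a r y - phiR e a r z| ≤ 4 * (x ^ a * 1) := by
    have h1 := phiR_absN (a := a) hr e y
    have h2 := phiR_absN (a := a) hr e z
    rw [← hY] at h1
    rw [← hx] at h2
    have h3 : Y ^ a ≤ x ^ a := Real.rpow_le_rpow_of_nonpos hx0 hxY ha0
    calc |phiR e a r y - phiR e a r z| ≤ |phiR e a r y| + |phiR e a r z| := abs_sub _ _
      _ ≤ 4 * (x ^ a * 1) := by linarith
  rw [← hx, ← hδ]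
  rcases le_total 1 (δ / x) with h | h
  · rw [min_eq_left h]; exact hC
  · rw [min_eq_right h]; exact hB

/-! ### the weight `PhR` -/

private lemma wg_q0 (v w : Vec d) : 0 ≤ min 1 (jb w / jb v) :=
  le_min zero_le_one (div_nonneg (jb_pos w).le (jb_pos v).le)

private lemma wg_pow4 {x y : ℝ} (hx : 0 ≤ x) (hx1 : x ≤ 1) (hy : 0 ≤ y) (hy1 : y ≤ 1) :
    |x ^ 4 - y ^ 4| ≤ min 1 (4 * |x - y|) := by
  have hx4 : 0 ≤ x ^ 4 := by positivity
  have hy4 : 0 ≤ y ^ 4 := by positivity
  have hx41 : x ^ 4 ≤ 1 := pow_le_one₀ hx hx1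
  have hy41 : y ^ 4 ≤ 1 := pow_le_one₀ hy hy1
  refine le_min (abs_le.2 ⟨by linarith, by linarith⟩) ?_
  have h1 : x ^ 4 - y ^ 4 = (x ^ 3 + x ^ 2 * y + x * y ^ 2 + y ^ 3) * (x - y) := by ring
  have h2 : 0 ≤ x ^ 3 + x ^ 2 * y + x * y ^ 2 + y ^ 3 := by positivity
  have h3 : x ^ 3 + x ^ 2 * y + x * y ^ 2 + y ^ 3 ≤ 4 := by
    have a1 : x ^ 3 ≤ 1 := pow_le_one₀ hx hx1
    have a2 : x ^ 2 * y ≤ 1 := mul_le_one₀ (pow_le_one₀ hx hx1) hy hy1
    have a3 : x * y ^ 2 ≤ 1 := mul_le_one₀ hx1 (by positivity) (pow_le_one₀ hy hy1)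
    have a4 : y ^ 3 ≤ 1 := pow_le_one₀ hy hy1
    linarith
  rw [h1, abs_mul, abs_of_nonneg h2]
  exact mul_le_mul_of_nonneg_right h3 (abs_nonneg _)

/-- second variable -/
private lemma wg_Om2 (v w w' : Vec d) :
    |min 1 (jb w / jb v) ^ 4 - min 1 (jb w' / jb v) ^ 4| ≤ min 1 (4 * (len (w - w') / jb v)) := by
  refine (wg_pow4 (wg_q0 v w) (min_le_left _ _) (wg_q0 v w') (min_le_left _ _)).trans ?_
  refine min_le_min_left _ (mul_le_mul_of_nonneg_left ?_ (by norm_num))
  refine (abs_min_sub_min_le_max _ _ _ _).trans ?_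
  rw [sub_self, abs_zero, ← sub_div, abs_div, abs_of_pos (jb_pos v)]
  exact max_le (div_nonneg (len_nonneg _) (jb_pos v).le) (div_le_div_of_nonneg_right (jb_lip w w') (jb_pos v).le)

/-- first variable -/
private lemma wg_Om1 (u v w : Vec d) :
    |min 1 (jb w / jb u) ^ 4 - min 1 (jb w / jb v) ^ 4| ≤ min 1 (4 * (len (u - v) / jb v)) := by
  refine (wg_pow4 (wg_q0 u w) (min_le_left _ _) (wg_q0 v w) (min_le_left _ _)).trans ?_
  refine min_le_min_left _ (mul_le_mul_of_nonneg_left ?_ (by norm_num))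
  have hu := jb_pos u
  have hv := jb_pos v
  have hw := jb_pos w
  have hl := abs_le.1 (jb_lip u v)
  have hd := len_nonneg (u - v)
  have h0 : 0 ≤ len (u - v) / jb v := div_nonneg hd hv.le
  have hq1 : min 1 (jb w / jb u) ≤ 1 := min_le_left _ _
  have hq2 : min 1 (jb w / jb v) ≤ 1 := min_le_left _ _
  rw [abs_le]
  constructor
  · -- min(1,w/v) - min(1,w/u) ≤ |u-v|/v
    rcases le_total (jb u) (jb v) with h | h
    · have h1 : min 1 (jb w / jb v) ≤ min 1 (jb w / jb u) :=
        min_le_min_left _ (div_le_div_of_nonneg_left hw.le hu h)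
      linarith
    · -- u ≥ v
      rcases le_total (jb w) (jb u) with h2 | h2
      · have e1 : min 1 (jb w / jb u) = jb w / jb u := min_eq_right ((div_le_one hu).2 h2)
        rw [e1]
        rcases le_total (jb w) (jb v) with h3 | h3
        · have e2 : min 1 (jb w / jb v) = jb w / jb v := min_eq_right ((div_le_one hv).2 h3)
          rw [e2]
          have h4 : jb w / jb v - jb w / jb u ≤ len (u - v) / jb v := by
            rw [div_sub_div _ _ hv.ne' hu.ne', div_le_div_iff₀ (by positivity) hv]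
            have h5 : jb w * jb u - jb v * jb w ≤ len (u - v) * jb u := by nlinarith
            nlinarith
          linarith
        · have e2 : min 1 (jb w / jb v) = 1 := min_eq_left ((one_le_div hv).2 h3)
          rw [e2]
          have h4 : 1 - jb w / jb u ≤ len (u - v) / jb v := by
            have e3 : 1 - jb w / jb u = (jb u - jb w) / jb u := by field_simp
            rw [e3, div_le_div_iff₀ hu hv]
            exact mul_le_mul (by linarith) h hv.le hd
          linarith
      · have e1 : min 1 (jb w / jb u) = 1 := min_eq_left ((one_le_div hu).2 h2)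
        rw [e1]
        linarith
  · -- min(1,w/u) - min(1,w/v) ≤ |u-v|/v
    rcases le_total (jb v) (jb u) with h | h
    · have h1 : min 1 (jb w / jb u) ≤ min 1 (jb w / jb v) :=
        min_le_min_left _ (div_le_div_of_nonneg_left hw.le hv h)
      linarith
    · rcases le_total (jb v) (jb w) with h2 | h2
      · have e1 : min 1 (jb w / jb v) = 1 := min_eq_left ((one_le_div hv).2 h2)
        rw [e1]
        linarith
      · have e1 : min 1 (jb w / jb v) = jb w / jb v := min_eq_right ((div_le_one hv).2 h2)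
        rw [e1]
        rcases le_total (jb u) (jb w) with h3 | h3
        · have e2 : min 1 (jb w / jb u) = 1 := min_eq_left ((one_le_div hu).2 h3)
          rw [e2, sub_le_iff_le_add, ← add_div, one_le_div hv]
          linarith
        · have e2 : min 1 (jb w / jb u) = jb w / jb u := min_eq_right ((div_le_one hu).2 h3)
          rw [e2, div_sub_div _ _ hu.ne' hv.ne', div_le_div_iff₀ (by positivity) hv]
          have h5 : jb w * jb v - jb u * jb w ≤ len (u - v) * jb u := by nlinarith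
          nlinarith

lemma PhR_absN (hr : 0 < r) (e : Fin d) (v w : Vec d) :
    |PhR e a r v w| ≤ min 1 (jb w / jb v) ^ 4 * len (v - w) ^ a := by
  unfold PhR
  rw [abs_mul, abs_of_nonneg (pow_nonneg (wg_q0 v w) 4)]
  exact mul_le_mul_of_nonneg_left (phiR_absN hr e _) (pow_nonneg (wg_q0 v w) 4)

lemma PhR_absN' (hr : 0 < r) (e : Fin d) (v w : Vec d) : |PhR e a r v w| ≤ len (v - w) ^ a := by
  refine (PhR_absN hr e v w).trans ?_
  calc min 1 (jb w / jb v) ^ 4 * len (v - w) ^ a ≤ 1 * len (v - w) ^ a :=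
        mul_le_mul_of_nonneg_right (pow_le_one₀ (wg_q0 v w) (min_le_left _ _))
          (Real.rpow_nonneg (len_nonneg _) _)
    _ = _ := one_mul _

lemma PhR_bdN (ha : -1 < a) (ha0 : a ≤ 0) (hr : 0 < r) (e : Fin d) (v w : Vec d) :
    |PhR e a r v w| ≤ r ^ a := by
  unfold PhR
  rw [abs_mul, abs_of_nonneg (pow_nonneg (wg_q0 v w) 4)]
  calc min 1 (jb w / jb v) ^ 4 * |phiR e a r (v - w)| ≤ 1 * r ^ a :=
        mul_le_mul (pow_le_one₀ (wg_q0 v w) (min_le_left _ _)) (phiR_bdN ha ha0 hr e _)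
          (abs_nonneg _) zero_le_one
    _ = _ := one_mul _

lemma PhR_contN (ha : -1 < a) (hr : 0 < r) (e : Fin d) :
    Continuous fun p : Vec d × Vec d => PhR e a r p.1 p.2 := by
  unfold PhR
  have h1 : Continuous fun p : Vec d × Vec d => min 1 (jb p.2 / jb p.1) ^ 4 :=
    (continuous_const.min ((jb_cont.comp continuous_snd).div (jb_cont.comp continuous_fst)
      fun p => (jb_pos p.1).ne')).pow 4
  exact h1.mul ((phiR_contN ha hr e).comp (continuous_fst.sub continuous_snd))

/-- increments in the second variable: `v - w'` is the shorter vector -/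
private lemma wg_inc2 (ha : -1 < a) (ha0 : a ≤ 0) (hr : 0 < r) (e : Fin d) {v w w' : Vec d}
    (h0 : 0 < len (v - w')) (h1 : len (v - w') ≤ len (v - w)) :
    |PhR e a r v w - PhR e a r v w'| ≤
      12 * (len (v - w') ^ a * min 1 (len (w - w') / len (v - w'))) := by
  obtain ⟨ρ, hρ⟩ : ∃ ρ, ρ = len (v - w') := ⟨_, rfl⟩
  obtain ⟨δ, hδ⟩ : ∃ δ, δ = len (w - w') := ⟨_, rfl⟩
  have hv := jb_pos v
  have hρ0 : 0 < ρ := by rw [hρ]; exact h0
  have hδ0 : 0 ≤ δ := by rw [hδ]; exact len_nonneg _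
  have hρa : 0 ≤ ρ ^ a := Real.rpow_nonneg hρ0.le _
  have hm0 : 0 ≤ min 1 (δ / ρ) := le_min zero_le_one (div_nonneg hδ0 hρ0.le)
  have hinc := phiR_incN ha ha0 hr e (y := v - w) (z := v - w') h0 h1
  have e1 : len (v - w - (v - w')) = δ := by
    rw [hδ, len_comm w w']
    congr 1
    abel
  rw [e1, ← hρ] at hinc
  have hOm : |min 1 (jb w / jb v) ^ 4 - min 1 (jb w' / jb v) ^ 4| ≤ 8 * min 1 (δ / ρ) := by
    rcases le_total (2 * jb v) ρ with h | h
    · have h2 := len_le_jb v
      have h3 : jb v ≤ jb w' := by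
        have h4 : ρ ≤ len v + len w' := by rw [hρ]; exact len_sub_le v w'
        have h5 := len_le_jb w'
        linarith
      have h3' : jb v ≤ jb w := by
        have h4 : len (v - w) ≤ len v + len w := len_sub_le v w
        have h5 := len_le_jb w
        rw [← hρ] at h1
        linarith
      rw [min_eq_left ((one_le_div hv).2 h3), min_eq_left ((one_le_div hv).2 h3'), sub_self, abs_zero]
      positivity
    · have h2 := wg_Om2 v w w'
      rw [← hδ] at h2
      refine h2.trans ?_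
      have h3 : 4 * (δ / jb v) ≤ 8 * (δ / ρ) := by
        have h4 : δ / jb v ≤ 2 * (δ / ρ) := by
          rw [← mul_div_assoc, div_le_div_iff₀ hv hρ0]
          nlinarith
        linarith
      calc min 1 (4 * (δ / jb v)) ≤ min 8 (8 * (δ / ρ)) := min_le_min (by norm_num) h3
        _ = 8 * min 1 (δ / ρ) := by
            rw [mul_min_of_nonneg _ _ (by norm_num : (0 : ℝ) ≤ 8), mul_one]
  have h2 : PhR e a r v w - PhR e a r v w' =
      min 1 (jb w / jb v) ^ 4 * (phiR e a r (v - w) - phiR e a r (v - w')) +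
        (min 1 (jb w / jb v) ^ 4 - min 1 (jb w' / jb v) ^ 4) * phiR e a r (v - w') := by
    unfold PhR
    ring
  have h3 : |phiR e a r (v - w')| ≤ ρ ^ a := by rw [hρ]; exact phiR_absN hr e _
  rw [h2, ← hρ, ← hδ]
  calc _ ≤ |min 1 (jb w / jb v) ^ 4 * (phiR e a r (v - w) - phiR e a r (v - w'))| +
        |(min 1 (jb w / jb v) ^ 4 - min 1 (jb w' / jb v) ^ 4) * phiR e a r (v - w')| := abs_add_le _ _
    _ = min 1 (jb w / jb v) ^ 4 * |phiR e a r (v - w) - phiR e a r (v - w')| +
        |min 1 (jb w / jb v) ^ 4 - min 1 (jb w' / jb v) ^ 4| * |phiR e a r (v - w')| := by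
        rw [abs_mul, abs_mul, abs_of_nonneg (pow_nonneg (wg_q0 v w) 4)]
    _ ≤ 1 * (4 * (ρ ^ a * min 1 (δ / ρ))) + 8 * min 1 (δ / ρ) * ρ ^ a :=
        add_le_add (mul_le_mul (pow_le_one₀ (wg_q0 v w) (min_le_left _ _)) hinc (abs_nonneg _)
          zero_le_one) (mul_le_mul hOm h3 (abs_nonneg _) (by positivity))
    _ = _ := by ring

/-- increments in the second variable -/
theorem PhR_incN (ha : -1 < a) (ha0 : a ≤ 0) (hr : 0 < r) (e : Fin d) {v w w' : Vec d}
    (hw : 0 < len (v - w)) (hw' : 0 < len (v - w')) :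
    |PhR e a r v w - PhR e a r v w'| ≤ 12 * (min (len (v - w)) (len (v - w')) ^ a *
      min 1 (len (w - w') / min (len (v - w)) (len (v - w')))) := by
  rcases le_total (len (v - w')) (len (v - w)) with h | h
  · rw [min_eq_right h]
    exact wg_inc2 ha ha0 hr e hw' h
  · rw [min_eq_left h, abs_sub_comm, len_comm w w']
    exact wg_inc2 ha ha0 hr e hw h

/-- increments in the first variable -/
private lemma wg_inc1 (ha : -1 < a) (ha0 : a ≤ 0) (hr : 0 < r) (e : Fin d) {p q w : Vec d} {x : ℝ}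
    (hx : |min 1 (jb w / jb p) ^ 4 - min 1 (jb w / jb q) ^ 4| ≤ x) (h0 : 0 < len (q - w))
    (h1 : len (q - w) ≤ len (p - w)) :
    |PhR e a r p w - PhR e a r q w| ≤
      4 * (len (q - w) ^ a * min 1 (len (p - q) / len (q - w))) + len (p - w) ^ a * x := by
  have hinc := phiR_incN ha ha0 hr e (y := p - w) (z := q - w) h0 h1
  have e1 : p - w - (q - w) = p - q := by abel
  rw [e1] at hinc
  have h2 : PhR e a r p w - PhR e a r q w =
      min 1 (jb w / jb q) ^ 4 * (phiR e a r (p - w) - phiR e a r (q - w)) +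
        (min 1 (jb w / jb p) ^ 4 - min 1 (jb w / jb q) ^ 4) * phiR e a r (p - w) := by
    unfold PhR
    ring
  have h3 : |phiR e a r (p - w)| ≤ len (p - w) ^ a := phiR_absN hr e _
  rw [h2]
  calc _ ≤ |min 1 (jb w / jb q) ^ 4 * (phiR e a r (p - w) - phiR e a r (q - w))| +
        |(min 1 (jb w / jb p) ^ 4 - min 1 (jb w / jb q) ^ 4) * phiR e a r (p - w)| := abs_add_le _ _
    _ = min 1 (jb w / jb q) ^ 4 * |phiR e a r (p - w) - phiR e a r (q - w)| +
        |min 1 (jb w / jb p) ^ 4 - min 1 (jb w / jb q) ^ 4| * |phiR e a r (p - w)| := by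
        rw [abs_mul, abs_mul, abs_of_nonneg (pow_nonneg (wg_q0 q w) 4)]
    _ ≤ 1 * (4 * (len (q - w) ^ a * min 1 (len (p - q) / len (q - w)))) + x * len (p - w) ^ a :=
        add_le_add (mul_le_mul (pow_le_one₀ (wg_q0 q w) (min_le_left _ _)) hinc (abs_nonneg _)
          zero_le_one) (mul_le_mul hx h3 (abs_nonneg _) ((abs_nonneg _).trans hx))
    _ = _ := by ring

/-- increments in the first variable -/
theorem PhR_oscN (ha : -1 < a) (ha0 : a ≤ 0) (hr : 0 < r) (e : Fin d) {u v w : Vec d}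
    (hu : 0 < len (u - w)) (hv : 0 < len (v - w)) :
    |PhR e a r u w - PhR e a r v w| ≤ 4 * (min (len (u - w)) (len (v - w)) ^ a *
        min 1 (len (u - v) / min (len (u - w)) (len (v - w)))) +
      4 * (max (len (u - w)) (len (v - w)) ^ a * min 1 (len (u - v) / jb v)) := by
  have h0 : 0 ≤ len (u - v) / jb v := div_nonneg (len_nonneg _) (jb_pos v).le
  have hOm := wg_Om1 u v w
  have h1 : min 1 (4 * (len (u - v) / jb v)) ≤ 4 * min 1 (len (u - v) / jb v) := by
    rw [mul_min_of_nonneg _ _ (by norm_num : (0 : ℝ) ≤ 4), mul_one]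
    exact min_le_min_right _ (by norm_num)
  have hx := hOm.trans h1
  rcases le_total (len (v - w)) (len (u - w)) with h | h
  · rw [min_eq_right h, max_eq_left h]
    have h2 := wg_inc1 ha ha0 hr e hx hv h
    linarith
  · rw [min_eq_left h, max_eq_right h]
    have hx' : |min 1 (jb w / jb v) ^ 4 - min 1 (jb w / jb u) ^ 4| ≤
        4 * min 1 (len (u - v) / jb v) := by rw [abs_sub_comm]; exact hx
    have h2 := wg_inc1 ha ha0 hr e (p := v) (q := u) hx' hu h
    rw [abs_sub_comm, len_comm u v]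
    rw [len_comm u v] at h2
    linarith

lemma VPhR_nonnegN (hr : 0 < r) (e : Fin d) (v w : Vec d) : 0 ≤ (v e - w e) * PhR e a r v w := by
  have h1 : (v e - w e) * PhR e a r v w = min 1 (len (v - w) / r) * ((v e - w e) * PhS e a v w) := by
    unfold PhR phiR PhS
    ring
  rw [h1]
  exact mul_nonneg (wg_m0 hr _) (VPhS_nonneg e a v w)

lemma VPhR_leN (e : Fin d) (v w : Vec d) :
    (v e - w e) * PhR e a r v w ≤ (v e - w e) * PhS e a v w := by
  have h1 : (v e - w e) * PhR e a r v w = min 1 (len (v - w) / r) * ((v e - w e) * PhS e a v w) := by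
    unfold PhR phiR PhS
    ring
  rw [h1]
  calc _ ≤ 1 * ((v e - w e) * PhS e a v w) :=
        mul_le_mul_of_nonneg_right (min_le_left _ _) (VPhS_nonneg e a v w)
    _ = _ := one_mul _

/-- the regularisation changes the transport term by at most `r^(1+a)`, and only for `|v-w| < r` -/
theorem V_PhS_PhRN (ha : -1 < a) (hr : 0 < r) (e : Fin d) (v w : Vec d) :
    (v e - w e) * PhS e a v w ≤ (v e - w e) * PhR e a r v w +
      {u : Vec d | len (v - u) < r}.indicator (fun _ => r ^ (1 + a)) w := by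
  have h1 : (v e - w e) * PhR e a r v w = min 1 (len (v - w) / r) * ((v e - w e) * PhS e a v w) := by
    unfold PhR phiR PhS
    ring
  by_cases h : len (v - w) < r
  · rw [indicator_of_mem (show w ∈ {u : Vec d | len (v - u) < r} from h)]
    have h2 := VPhS_le_len e a v w
    have h3 : len (v - w) ^ (1 + a) ≤ r ^ (1 + a) :=
      Real.rpow_le_rpow (len_nonneg _) h.le (by linarith)
    have h4 := VPhR_nonnegN (a := a) hr e v w
    linarith
  · rw [indicator_of_notMem (show w ∉ {u : Vec d | len (v - u) < r} from h), h1,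
      min_eq_left ((one_le_div hr).2 (not_lt.1 h))]
    linarith

end Pool.Agent.H82.DG
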